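import Pool.Agent.H492.UB.Final

/-!
# Double shuffle relations: an upper bound for the dimensions in depth five

`IsDM ψ`: `ψ` is in Racinet's Lie algebra `dm₀(ℚ)`. `grdm N r = gr_r dm_N`: the elements of `dm₀(ℚ)` which are
homogeneous of weight `N` and of depth at least `r` (every word of `ψ` has at least `r` letters `x₁`), modulo
those of depth at least `r + 1`. `ls r e`: the elements of the linearized double shuffle Lie algebra `ls` of depth
`r` and weight `e + r` (every word has `e` letters `x₀` and `r` letters `x₁`).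

**Theorem.** For every `e`, `dim gr₅ dm_{e+5} ≤ dim ls₅(e) ≤ (1/155) C(e + 998, 4)`.
-/

set_option autoImplicit false

namespace Pool.Agent.Results.MP_a57f33_nt.DepthFive

open Pool.Agent.H492.UB

theorem result (e : ℕ) :
    Module.Finite ℚ (grdm (e + 5) 5) ∧ Module.Finite ℚ (ls 5 e) ∧
      Module.finrank ℚ (grdm (e + 5) 5) ≤ Module.finrank ℚ (ls 5 e) ∧
      155 * Module.finrank ℚ (ls 5 e) ≤ (e + 998).choose 4 := by
  have h5 := (gr_le (e + 5) 5 (by norm_num)).1
  rw [Nat.add_sub_cancel] at h5
  exact ⟨finite_gr (e + 5) 5 (by norm_num), finite_ls 5 e (by norm_num), h5, ls5_le e⟩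

end Pool.Agent.Results.MP_a57f33_nt.DepthFive
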