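import Pool.Agent.H492.UB.Final
import Pool.Agent.H492.CT.Final

/-!
# Double shuffle relations: an upper bound for the dimensions in depth four

`IsDM ψ`: `ψ` is in Racinet's Lie algebra `dm₀(ℚ)`. `grdm N r = gr_r dm_N`: the elements of `dm₀(ℚ)` which are
homogeneous of weight `N` and of depth at least `r` (every word of `ψ` has at least `r` letters `x₁`), modulo
those of depth at least `r + 1`. `ls r e`: the elements of the linearized double shuffle Lie algebra `ls` of depth
`r` and weight `e + r` (every word has `e` letters `x₀` and `r` letters `x₁`).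

**Theorem.** For every `e`, `dim gr₄ dm_{e+4} ≤ dim ls₄(e) ≤ (373/29952) C(e + 3246, 3)`, and both dimensions are zero for
odd `e`.

The predicted value (Broadhurst-Kreimer) is `(7/3456) e³ + O(e²)` for even `e`; the bound is `(373/179712) e³ + O(e²)`,
which is `1.0247…` times as large.
-/

set_option autoImplicit false

namespace Pool.Agent.Results.MP_a57f33_nt.DepthFour

open Pool.Agent.H492.UB

theorem result (e : ℕ) :
    Module.Finite ℚ (grdm (e + 4) 4) ∧ Module.Finite ℚ (ls 4 e) ∧
      Module.finrank ℚ (grdm (e + 4) 4) ≤ Module.finrank ℚ (ls 4 e) ∧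
      29952 * Module.finrank ℚ (ls 4 e) ≤ 373 * (e + 3246).choose 3 ∧
      (Odd e → Module.finrank ℚ (ls 4 e) = 0) := by
  have h4 := (gr_le (e + 4) 4 (by norm_num)).1
  rw [Nat.add_sub_cancel] at h4
  have h5 := ls_le_W 4 e (by norm_num)
  refine ⟨finite_gr (e + 4) 4 (by norm_num), finite_ls 4 e (by norm_num), h4,
    (Nat.mul_le_mul_left _ h5).trans (Pool.Agent.H492.CT.w4_le e), fun he => ?_⟩
  rw [sOdd e he, finrank_bot] at h5
  omega

end Pool.Agent.Results.MP_a57f33_nt.DepthFour
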